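import Mathlib

set_option autoImplicit false

namespace Pool.Agent.H195R2

open Finset

/-- Boolean functions in `n` variables. -/
abbrev Fn (n : ℕ) := (Fin n → ZMod 2) → ZMod 2

/-- The monomial of a set of variables. -/
def mono {n : ℕ} (S : Finset (Fin n)) : Fn n := fun x => ∏ i ∈ S, x i

/-- The Reed-Muller code. -/
def RM (k n : ℕ) : Submodule (ZMod 2) (Fn n) :=
  Submodule.span (ZMod 2) (mono '' {S : Finset (Fin n) | S.card ≤ k})

lemma zmod2_cases (a : ZMod 2) : a = 0 ∨ a = 1 := by
  revert a; decide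

lemma mono_apply {n : ℕ} (S : Finset (Fin n)) (x : Fin n → ZMod 2) :
    mono S x = if ∀ i ∈ S, x i = 1 then 1 else 0 := by
  unfold mono
  split_ifs with h
  · exact Finset.prod_eq_one h
  · push Not at h
    obtain ⟨i, hi, hx⟩ := h
    apply Finset.prod_eq_zero hi
    rcases zmod2_cases (x i) with h0 | h1
    · exact h0
    · exact absurd h1 hx

lemma mono_mul {n : ℕ} (S T : Finset (Fin n)) : mono S * mono T = mono (S ∪ T) := by
  funext x
  simp only [Pi.mul_apply, mono_apply, Finset.mem_union]
  by_cases h1 : ∀ i ∈ S, x i = 1 <;> by_cases h2 : ∀ i ∈ T, x i = 1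
  · rw [if_pos h1, if_pos h2, if_pos]
    · rfl
    · rintro i (hi | hi)
      · exact h1 i hi
      · exact h2 i hi
  · rw [if_neg h2, mul_zero]
    symm
    apply if_neg
    intro h
    exact h2 fun i hi => h i (Or.inr hi)
  · rw [if_neg h1, zero_mul]
    symm
    apply if_neg
    intro h
    exact h1 fun i hi => h i (Or.inl hi)
  · rw [if_neg h1, zero_mul]
    symm
    apply if_neg
    intro h
    exact h1 fun i hi => h i (Or.inl hi)

lemma mono_mem {n k : ℕ} {S : Finset (Fin n)} (h : S.card ≤ k) : mono S ∈ RM k n :=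
  Submodule.subset_span ⟨S, h, rfl⟩

lemma RM_le {n k l : ℕ} (h : k ≤ l) : RM k n ≤ RM l n := by
  apply Submodule.span_mono
  apply Set.image_mono
  intro S hS
  exact le_trans hS h

lemma one_mem (k n : ℕ) : (1 : Fn n) ∈ RM k n := by
  have : (1 : Fn n) = mono ∅ := by
    funext x; simp [mono]
  rw [this]
  exact mono_mem (by simp)

lemma mul_mem {n k l : ℕ} {f g : Fn n} (hf : f ∈ RM k n) (hg : g ∈ RM l n) :
    f * g ∈ RM (k + l) n := by
  have h := Submodule.mul_mem_mul hf hg
  rw [RM, RM, Submodule.span_mul_span] at h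
  refine Submodule.span_mono ?_ h
  rintro _ ⟨_, ⟨S, hS, rfl⟩, _, ⟨T, hT, rfl⟩, rfl⟩
  refine ⟨S ∪ T, ?_, (mono_mul S T).symm⟩
  exact le_trans (Finset.card_union_le _ _) (Nat.add_le_add hS hT)

lemma prod_mem' {m : ℕ} {ι : Type*} [DecidableEq ι] (S : Finset ι) (g : ι → Fn m)
    (hg : ∀ i, g i ∈ RM 1 m) : (∏ i ∈ S, g i) ∈ RM S.card m := by
  induction S using Finset.induction_on with
  | empty => simpa using one_mem 0 m
  | insert a s ha ih =>
    rw [Finset.prod_insert ha, Finset.card_insert_of_notMem ha, add_comm]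
    exact mul_mem (hg a) ih

lemma comp_mem {n m k : ℕ} (φ : (Fin m → ZMod 2) → (Fin n → ZMod 2))
    (hφ : ∀ i, (fun x => φ x i) ∈ RM 1 m) {f : Fn n} (hf : f ∈ RM k n) :
    f ∘ φ ∈ RM k m := by
  unfold RM at hf
  induction hf using Submodule.span_induction with
  | mem x h =>
    obtain ⟨S, hS, rfl⟩ := h
    have : (mono S) ∘ φ = ∏ i ∈ S, (fun x => φ x i) := by
      funext x
      simp [mono, Finset.prod_apply]
    rw [this]
    exact RM_le hS (prod_mem' S _ hφ)
  | zero => exact Submodule.zero_mem _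
  | add x y _ _ hx hy => exact Submodule.add_mem _ hx hy
  | smul a x _ hx => exact Submodule.smul_mem _ a hx

lemma coord_mem {n : ℕ} (i : Fin n) : (fun x : Fin n → ZMod 2 => x i) ∈ RM 1 n := by
  have : (fun x : Fin n → ZMod 2 => x i) = mono {i} := by
    funext x; simp [mono]
  rw [this]
  exact mono_mem (by simp)

/-- the delta function at `a` -/
lemma RM_top {k n : ℕ} (h : n ≤ k) : RM k n = ⊤ := by
  have hdelta : ∀ a : Fin n → ZMod 2, (∏ i : Fin n, (fun x : Fin n → ZMod 2 => x i + a i + 1)) ∈ RM k n := by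
    intro a
    have := prod_mem' (m := n) (Finset.univ : Finset (Fin n))
      (fun i => (fun x : Fin n → ZMod 2 => x i + a i + 1)) ?_
    · rw [Finset.card_univ, Fintype.card_fin] at this
      exact RM_le h this
    · intro i
      have h1 : (fun x : Fin n → ZMod 2 => x i + a i + 1)
          = (fun x : Fin n → ZMod 2 => x i) + (a i + 1) • (1 : Fn n) := by
        funext x
        simp [add_assoc]
      rw [h1]
      exact Submodule.add_mem _ (coord_mem i) (Submodule.smul_mem _ _ (one_mem 1 n))
  rw [eq_top_iff]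
  intro f _
  have hf : f = ∑ a : Fin n → ZMod 2, f a • (∏ i : Fin n, (fun x : Fin n → ZMod 2 => x i + a i + 1)) := by
    funext x
    simp only [Finset.sum_apply, Pi.smul_apply, Finset.prod_apply, smul_eq_mul]
    rw [Finset.sum_eq_single x]
    · have : ∀ i, x i + x i + 1 = 1 := by
        intro i
        rcases zmod2_cases (x i) with h0 | h0 <;> rw [h0] <;> decide
      simp [this]
    · intro b _ hb
      have : ∃ i, x i ≠ b i := by
        by_contra hcon
        push Not at hcon
        exact hb (funext fun i => (hcon i).symm)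
      obtain ⟨i, hi⟩ := this
      have key : ∀ a b : ZMod 2, a ≠ b → a + b + 1 = 0 := by decide
      have : (∏ i, (x i + b i + 1)) = 0 :=
        Finset.prod_eq_zero (Finset.mem_univ i) (key _ _ hi)
      rw [this, mul_zero]
    · intro hx
      exact absurd (Finset.mem_univ x) hx
  rw [hf]
  exact Submodule.sum_mem _ fun a _ => Submodule.smul_mem _ _ (hdelta a)

/-! ### Distances -/

/-- distance to a set -/
noncomputable def dd {n : ℕ} (A : Set (Fn n)) (y : Fn n) : ℕ := sInf ((fun f => hammingDist y f) '' A)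

lemma dd_exists {n : ℕ} {A : Set (Fn n)} (hA : A.Nonempty) (y : Fn n) :
    ∃ a ∈ A, hammingDist y a = dd A y := by
  have h : ((fun f => hammingDist y f) '' A).Nonempty := hA.image _
  obtain ⟨a, ha, h2⟩ := Nat.sInf_mem h
  exact ⟨a, ha, h2⟩

lemma dd_le {n : ℕ} {A : Set (Fn n)} (y : Fn n) {a : Fn n} (ha : a ∈ A) :
    dd A y ≤ hammingDist y a := Nat.sInf_le ⟨a, ha, rfl⟩

lemma le_dd {n : ℕ} {A : Set (Fn n)} (hA : A.Nonempty) (y : Fn n) {r : ℕ}
    (h : ∀ a ∈ A, r ≤ hammingDist y a) : r ≤ dd A y := by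
  obtain ⟨a, ha, h2⟩ := dd_exists hA y
  rw [← h2]
  exact h a ha

lemma RM_nonempty (k n : ℕ) : ((RM k n : Submodule (ZMod 2) (Fn n)) : Set (Fn n)).Nonempty :=
  ⟨0, Submodule.zero_mem _⟩

/-- covering radius -/
noncomputable def cov (k n : ℕ) : ℕ := Finset.univ.sup (dd ((RM k n : Submodule (ZMod 2) (Fn n)) : Set (Fn n)))

lemma dd_le_cov (k n : ℕ) (y : Fn n) : dd ((RM k n : Submodule (ZMod 2) (Fn n)) : Set (Fn n)) y ≤ cov k n :=
  Finset.le_sup (f := dd ((RM k n : Submodule (ZMod 2) (Fn n)) : Set (Fn n))) (Finset.mem_univ y)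

lemma exists_cov (k n : ℕ) : ∃ y : Fn n, dd ((RM k n : Submodule (ZMod 2) (Fn n)) : Set (Fn n)) y = cov k n := by
  obtain ⟨y, _, hy⟩ := Finset.exists_mem_eq_sup (Finset.univ : Finset (Fn n)) Finset.univ_nonempty
    (dd ((RM k n : Submodule (ZMod 2) (Fn n)) : Set (Fn n)))
  exact ⟨y, hy.symm⟩

/-- restriction to a half space -/
def half {n : ℕ} (b : ZMod 2) (f : Fn (n + 1)) : Fn n := fun x => f (Fin.cons b x)

lemma hd_split {n : ℕ} (f g : Fn (n + 1)) :
    hammingDist f g = hammingDist (half 0 f) (half 0 g) + hammingDist (half 1 f) (half 1 g) := by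
  unfold hammingDist
  simp only [Finset.card_filter]
  rw [← Fintype.sum_equiv (Fin.consEquiv (fun _ : Fin (n + 1) => ZMod 2))
    (fun p : ZMod 2 × (Fin n → ZMod 2) => if f (Fin.cons p.1 p.2) ≠ g (Fin.cons p.1 p.2) then 1 else 0)
    (fun x => if f x ≠ g x then 1 else 0)]
  · rw [Fintype.sum_prod_type]
    have : (Finset.univ : Finset (ZMod 2)) = {0, 1} := by decide
    rw [this, Finset.sum_pair (by decide)]
    rfl
  · rintro ⟨a, b⟩
    rfl

lemma half_mem {k n : ℕ} (b : ZMod 2) {f : Fn (n + 1)} (hf : f ∈ RM k (n + 1)) :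
    half b f ∈ RM k n := by
  have : half b f = f ∘ (fun x : Fin n → ZMod 2 => (Fin.cons b x : Fin (n + 1) → ZMod 2)) := rfl
  rw [this]
  apply comp_mem _ _ hf
  intro i
  refine Fin.cases ?_ ?_ i
  · have : (fun x : Fin n → ZMod 2 => (Fin.cons b x : Fin (n + 1) → ZMod 2) 0) = b • (1 : Fn n) := by
      funext x; simp
    rw [this]
    exact Submodule.smul_mem _ _ (one_mem 1 n)
  · intro j
    have : (fun x : Fin n → ZMod 2 => (Fin.cons b x : Fin (n + 1) → ZMod 2) j.succ)
        = (fun x : Fin n → ZMod 2 => x j) := by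
      funext x; simp
    rw [this]
    exact coord_mem j

lemma tail_mem {k n : ℕ} {f : Fn n} (hf : f ∈ RM k n) :
    (fun x : Fin (n + 1) → ZMod 2 => f (Fin.tail x)) ∈ RM k (n + 1) := by
  have : (fun x : Fin (n + 1) → ZMod 2 => f (Fin.tail x))
      = f ∘ (fun x : Fin (n + 1) → ZMod 2 => Fin.tail x) := rfl
  rw [this]
  apply comp_mem _ _ hf
  intro i
  exact coord_mem i.succ

lemma cov_two_le (k n : ℕ) : 2 * cov k n ≤ cov k (n + 1) := by
  obtain ⟨u, hu⟩ := exists_cov k n
  refine le_trans ?_ (dd_le_cov k (n + 1) (fun x => u (Fin.tail x)))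
  apply le_dd (RM_nonempty _ _)
  intro a ha
  rw [hd_split, two_mul]
  have h0 : half 0 (fun x : Fin (n + 1) → ZMod 2 => u (Fin.tail x)) = u := by
    funext x; simp [half]
  have h1 : half 1 (fun x : Fin (n + 1) → ZMod 2 => u (Fin.tail x)) = u := by
    funext x; simp [half]
  rw [h0, h1]
  refine Nat.add_le_add ?_ ?_
  · rw [← hu]; exact dd_le u (half_mem 0 ha)
  · rw [← hu]; exact dd_le u (half_mem 1 ha)

lemma cov_le_add (k n : ℕ) : cov (k + 1) (n + 1) ≤ cov k n + cov (k + 1) n := by
  obtain ⟨y, hy⟩ := exists_cov (k + 1) (n + 1)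
  rw [← hy]
  obtain ⟨c, hc, hc2⟩ := dd_exists (RM_nonempty (k + 1) n) (half 0 y)
  obtain ⟨c', hc', hc2'⟩ := dd_exists (RM_nonempty k n) (half 1 y - c)
  set F : Fn (n + 1) := fun x => c (Fin.tail x) + x 0 * c' (Fin.tail x) with hF
  have hFm : F ∈ RM (k + 1) (n + 1) := by
    have h1 : (fun x : Fin (n + 1) → ZMod 2 => c (Fin.tail x)) ∈ RM (k + 1) (n + 1) := tail_mem hc
    have h2 : (fun x : Fin (n + 1) → ZMod 2 => c' (Fin.tail x)) ∈ RM k (n + 1) := tail_mem hc'
    have h3 := mul_mem h2 (coord_mem (n := n + 1) 0)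
    have h4 := Submodule.add_mem _ h1 h3
    have : F = (fun x : Fin (n + 1) → ZMod 2 => c (Fin.tail x))
        + (fun x : Fin (n + 1) → ZMod 2 => c' (Fin.tail x)) * (fun x : Fin (n + 1) → ZMod 2 => x 0) := by
      funext x
      simp [hF, mul_comm]
    rw [this]
    exact h4
  refine le_trans (dd_le y hFm) ?_
  rw [hd_split]
  have h0 : half 0 F = c := by
    funext x; simp [half, hF]
  have h1 : half 1 F = c + c' := by
    funext x; simp [half, hF]
  rw [h0, h1, hc2]
  have h5 : hammingDist (half 1 y) (c + c') = hammingDist (half 1 y - c) c' := by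
    rw [hammingDist_eq_hammingNorm, hammingDist_eq_hammingNorm]
    congr 1
    abel
  rw [h5, hc2', add_comm]
  exact Nat.add_le_add (dd_le_cov _ _ _) (dd_le_cov _ _ _)

lemma cov_top {k n : ℕ} (h : n ≤ k) : cov k n = 0 := by
  obtain ⟨y, hy⟩ := exists_cov k n
  rw [← hy, ← Nat.le_zero]
  have : y ∈ ((RM k n : Submodule (ZMod 2) (Fn n)) : Set (Fn n)) := by
    rw [RM_top h]; trivial
  have h2 := dd_le y this
  simpa using h2

lemma flp_flp' {n : ℕ} (i : Fin n) (x : Fin n → ZMod 2) :
    Function.update (Function.update x i (x i + 1)) i (Function.update x i (x i + 1) i + 1) = x := by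
  rw [Function.update_self, Function.update_idem, add_assoc,
    CharTwo.add_self_eq_zero, add_zero, Function.update_eq_self]

/-- sum of all values -/
lemma sum_RM {n : ℕ} {f : Fn (n + 1)} (hf : f ∈ RM n (n + 1)) : ∑ x, f x = 0 := by
  unfold RM at hf
  induction hf using Submodule.span_induction with
  | mem x h =>
    obtain ⟨S, hS, rfl⟩ := h
    have hne : ∃ i, i ∉ S := by
      by_contra hcon
      push Not at hcon
      have : S = Finset.univ := Finset.eq_univ_iff_forall.mpr hcon
      have h2 : S.card ≤ n := hS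
      rw [this, Finset.card_univ, Fintype.card_fin] at h2
      omega
    obtain ⟨i, hi⟩ := hne
    apply Finset.sum_involution (fun x _ => Function.update x i (x i + 1))
    · intro x _
      have : mono S (Function.update x i (x i + 1)) = mono S x := by
        unfold mono
        apply Finset.prod_congr rfl
        intro j hj
        rw [Function.update_of_ne]
        rintro rfl
        exact hi hj
      rw [this]
      exact CharTwo.add_self_eq_zero _
    · intro x _ _ h
      have := congrFun h i
      simp at this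
    · intro x _
      exact flp_flp' i x
    · intro x hx
      exact Finset.mem_univ _
  | zero => simp
  | add x y _ _ hx hy => simp [Finset.sum_add_distrib, hx, hy]
  | smul a x _ hx =>
    simp only [Pi.smul_apply, smul_eq_mul, ← Finset.mul_sum, hx, mul_zero]

lemma cov_pos (n : ℕ) : 0 < cov n (n + 1) := by
  rw [Nat.pos_iff_ne_zero]
  intro h
  have h1 : ∀ f : Fn (n + 1), f ∈ RM n (n + 1) := by
    intro f
    have h2 := dd_le_cov n (n + 1) f
    rw [h, Nat.le_zero] at h2
    obtain ⟨a, ha, h3⟩ := dd_exists (RM_nonempty n (n + 1)) f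
    rw [h2, hammingDist_eq_zero] at h3
    rw [h3]
    exact ha
  have h2 := sum_RM (h1 (Pi.single 0 1))
  rw [Finset.sum_pi_single'] at h2
  simp at h2

lemma cov_strict : ∀ n k : ℕ, k < n → cov (k + 1) n < cov k n := by
  intro n
  induction n with
  | zero => intro k hk; omega
  | succ n ih =>
    intro k hk
    rcases Nat.lt_succ_iff_lt_or_eq.mp hk with h | h
    · have h1 := cov_le_add k n
      have h2 := cov_two_le k n
      have h3 := ih k h
      omega
    · subst h
      rw [cov_top (le_refl _)]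
      exact cov_pos k

/-! ### Operators -/

/-- transvection: replace `x i` by `x i + x j` -/
def trv {n : ℕ} (i j : Fin n) (x : Fin n → ZMod 2) : Fin n → ZMod 2 := Function.update x i (x i + x j)

/-- flip the coordinate `i` -/
def flp {n : ℕ} (i : Fin n) (x : Fin n → ZMod 2) : Fin n → ZMod 2 := Function.update x i (x i + 1)

lemma trv_trv {n : ℕ} {i j : Fin n} (h : i ≠ j) (x : Fin n → ZMod 2) : trv i j (trv i j x) = x := by
  unfold trv
  rw [Function.update_self, Function.update_of_ne h.symm, Function.update_idem, add_assoc,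
    CharTwo.add_self_eq_zero, add_zero, Function.update_eq_self]

lemma flp_flp {n : ℕ} (i : Fin n) (x : Fin n → ZMod 2) : flp i (flp i x) = x := by
  unfold flp
  rw [Function.update_self, Function.update_idem, add_assoc,
    CharTwo.add_self_eq_zero, add_zero, Function.update_eq_self]

/-- monomial under an update outside/inside the set -/
lemma mono_update {n : ℕ} (S : Finset (Fin n)) (i : Fin n) (x : Fin n → ZMod 2) (a : ZMod 2) :
    mono S (Function.update x i a) = if i ∈ S then a * mono (S.erase i) x else mono S x := by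
  split_ifs with h
  · unfold mono
    rw [← Finset.mul_prod_erase S _ h, Function.update_self]
    congr 1
    apply Finset.prod_congr rfl
    intro j hj
    rw [Function.update_of_ne (Finset.ne_of_mem_erase hj)]
  · unfold mono
    apply Finset.prod_congr rfl
    intro j hj
    rw [Function.update_of_ne]
    rintro rfl
    exact h hj

lemma mono_eq_mul {n : ℕ} {S : Finset (Fin n)} {i : Fin n} (h : i ∈ S) (x : Fin n → ZMod 2) :
    mono S x = x i * mono (S.erase i) x := by
  unfold mono
  rw [← Finset.mul_prod_erase S _ h]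

lemma flp_mono {n : ℕ} (S : Finset (Fin n)) (i : Fin n) :
    (mono S) ∘ flp i + mono S = if i ∈ S then mono (S.erase i) else 0 := by
  funext x
  simp only [Pi.add_apply, Function.comp_apply, flp, mono_update]
  split_ifs with h
  · rw [mono_eq_mul h, ← add_mul, add_comm (x i) 1, add_assoc, CharTwo.add_self_eq_zero, add_zero, one_mul]
  · simp [CharTwo.add_self_eq_zero]

lemma trv_mono {n : ℕ} (S : Finset (Fin n)) (i j : Fin n) :
    (mono S) ∘ trv i j + mono S = if i ∈ S then mono (insert j (S.erase i)) else 0 := by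
  funext x
  simp only [Pi.add_apply, Function.comp_apply, trv, mono_update]
  split_ifs with h
  · rw [mono_eq_mul h, ← add_mul, add_comm (x i) (x j), add_assoc, CharTwo.add_self_eq_zero, add_zero]
    have : insert j (S.erase i) = {j} ∪ S.erase i := rfl
    rw [this, ← mono_mul]
    simp [mono]
  · simp [CharTwo.add_self_eq_zero]

lemma comp_trv_mem {n k : ℕ} {f : Fn n} (hf : f ∈ RM k n) (i j : Fin n) : f ∘ trv i j ∈ RM k n := by
  apply comp_mem _ _ hf
  intro l
  by_cases h : l = i
  · subst h
    have : (fun x : Fin n → ZMod 2 => trv l j x l) = (fun x => x l) + (fun x => x j) := by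
      funext x; simp [trv]
    rw [this]
    exact Submodule.add_mem _ (coord_mem l) (coord_mem j)
  · have : (fun x : Fin n → ZMod 2 => trv i j x l) = (fun x => x l) := by
      funext x; simp [trv, h]
    rw [this]
    exact coord_mem l

lemma comp_flp_mem {n k : ℕ} {f : Fn n} (hf : f ∈ RM k n) (i : Fin n) : f ∘ flp i ∈ RM k n := by
  apply comp_mem _ _ hf
  intro l
  by_cases h : l = i
  · subst h
    have : (fun x : Fin n → ZMod 2 => flp l x l) = (fun x => x l) + 1 := by
      funext x; simp [flp]
    rw [this]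
    exact Submodule.add_mem _ (coord_mem l) (one_mem 1 n)
  · have : (fun x : Fin n → ZMod 2 => flp i x l) = (fun x => x l) := by
      funext x; simp [flp, h]
    rw [this]
    exact coord_mem l

/-- the derivative of a function of degree `≤ k+1` has degree `≤ k` -/
lemma der_mem {n k : ℕ} {f : Fn n} (hf : f ∈ RM (k + 1) n) (i : Fin n) : f ∘ flp i + f ∈ RM k n := by
  unfold RM at hf
  induction hf using Submodule.span_induction with
  | mem x h =>
    obtain ⟨S, hS, rfl⟩ := h
    have hS' : S.card ≤ k + 1 := hS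
    rw [flp_mono]
    split_ifs with h
    · apply mono_mem
      rw [Finset.card_erase_of_mem h]
      omega
    · exact Submodule.zero_mem _
  | zero =>
    have : (0 : Fn n) ∘ flp i + 0 = 0 := by
      funext x; simp
    rw [this]
    exact Submodule.zero_mem _
  | add x y _ _ hx hy =>
    have : (x + y) ∘ flp i + (x + y) = (x ∘ flp i + x) + (y ∘ flp i + y) := by
      funext z; simp; ring
    rw [this]
    exact Submodule.add_mem _ hx hy
  | smul a x _ hx =>
    have : (a • x) ∘ flp i + (a • x) = a • (x ∘ flp i + x) := by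
      funext z; simp; ring
    rw [this]
    exact Submodule.smul_mem _ a hx

/-- the projection `E_{ij} E_{ji}` onto monomials containing `i` and not `j` -/
def prj {n : ℕ} (i j : Fin n) (f : Fn n) : Fn n :=
  (f ∘ trv i j + f) ∘ trv j i + (f ∘ trv i j + f)

lemma prj_add {n : ℕ} (i j : Fin n) (f g : Fn n) : prj i j (f + g) = prj i j f + prj i j g := by
  funext x
  simp [prj]
  ring

lemma prj_mem {n k : ℕ} {f : Fn n} (hf : f ∈ RM k n) (i j : Fin n) : prj i j f ∈ RM k n := by
  unfold prj
  have h1 := Submodule.add_mem _ (comp_trv_mem hf i j) hf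
  exact Submodule.add_mem _ (comp_trv_mem h1 j i) h1

lemma prj_mono {n : ℕ} (S : Finset (Fin n)) {i j : Fin n} (hij : i ≠ j) :
    ∃ r ∈ RM (S.card - 1) n, prj i j (mono S) = (if i ∈ S ∧ j ∉ S then mono S else 0) + r := by
  unfold prj
  rw [trv_mono]
  by_cases hi : i ∈ S
  · rw [if_pos hi, trv_mono]
    by_cases hj : j ∈ S
    · have h1 : j ∈ insert j (S.erase i) := Finset.mem_insert_self _ _
      rw [if_pos h1]
      refine ⟨mono (insert i ((insert j (S.erase i)).erase j)), ?_, ?_⟩
      rotate_left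
      · rw [if_neg (by tauto), zero_add]
      · apply mono_mem
        have h2 : insert j (S.erase i) = S.erase i := Finset.insert_eq_of_mem (Finset.mem_erase.mpr ⟨hij.symm, hj⟩)
        rw [h2]
        refine le_trans (Finset.card_insert_le _ _) ?_
        rw [Finset.card_erase_of_mem (Finset.mem_erase.mpr ⟨hij.symm, hj⟩), Finset.card_erase_of_mem hi]
        have : 2 ≤ S.card := by
          have := Finset.card_le_card (show ({i, j} : Finset (Fin n)) ⊆ S by
            intro x hx
            simp at hx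
            rcases hx with rfl | rfl <;> assumption)
          rw [Finset.card_pair hij] at this
          exact this
        omega
    · refine ⟨0, Submodule.zero_mem _, ?_⟩
      have h1 : j ∈ insert j (S.erase i) := Finset.mem_insert_self _ _
      rw [if_pos h1, if_pos ⟨hi, hj⟩, add_zero]
      have h2 : j ∉ S.erase i := fun h => hj (Finset.mem_of_mem_erase h)
      rw [Finset.erase_insert h2, Finset.insert_erase hi]
  · refine ⟨0, Submodule.zero_mem _, ?_⟩
    rw [if_neg hi, if_neg (by tauto), add_zero]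
    funext x; simp

/-- additive version of `prj` -/
def prjH {n : ℕ} (i j : Fin n) : Fn n →+ Fn n := AddMonoidHom.mk' (prj i j) (prj_add i j)

lemma top_part {n d : ℕ} {f : Fn n} (hf : f ∈ RM d n) :
    ∃ a : Finset (Fin n) → ZMod 2, ∃ r ∈ RM (d - 1) n,
      f = (∑ S ∈ (Finset.univ : Finset (Fin n)).powersetCard d, a S • mono S) + r := by
  classical
  unfold RM at hf
  induction hf using Submodule.span_induction with
  | mem x h =>
    obtain ⟨S, hS, rfl⟩ := h
    have hS' : S.card ≤ d := hS
    rcases Nat.lt_or_eq_of_le hS' with h | h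
    · refine ⟨0, mono S, mono_mem (by omega), ?_⟩
      simp
    · refine ⟨Pi.single S 1, 0, Submodule.zero_mem _, ?_⟩
      rw [add_zero, Finset.sum_eq_single S]
      · simp
      · intro b _ hb
        simp [Pi.single_eq_of_ne hb]
      · intro h2
        exact absurd (Finset.mem_powersetCard.mpr ⟨Finset.subset_univ _, h⟩) h2
  | zero => exact ⟨0, 0, Submodule.zero_mem _, by simp⟩
  | add x y _ _ hx hy =>
    obtain ⟨a, r, hr, h1⟩ := hx
    obtain ⟨b, t, ht, h2⟩ := hy
    refine ⟨a + b, r + t, Submodule.add_mem _ hr ht, ?_⟩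
    rw [h1, h2]
    simp only [Pi.add_apply, add_smul, Finset.sum_add_distrib]
    abel
  | smul c x _ hx =>
    obtain ⟨a, r, hr, h1⟩ := hx
    refine ⟨c • a, c • r, Submodule.smul_mem _ _ hr, ?_⟩
    rw [h1]
    simp only [Pi.smul_apply, smul_eq_mul, mul_smul, smul_add, Finset.smul_sum]

section Inv

variable {n : ℕ} (P : Submodule (ZMod 2) (Fn n))
  (htrv : ∀ f ∈ P, ∀ i j : Fin n, i ≠ j → f ∘ trv i j ∈ P)
  (hflp : ∀ f ∈ P, ∀ i : Fin n, f ∘ flp i ∈ P)

include htrv in
lemma single_top {d : ℕ} : ∀ N : ℕ, ∀ A : Finset (Finset (Fin n)), A.card = N → A.Nonempty →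
    (∀ S ∈ A, S.card = d) → ∀ r ∈ RM (d - 1) n, (∑ S ∈ A, mono S) + r ∈ P →
    ∃ U : Finset (Fin n), U.card = d ∧ ∃ r' ∈ RM (d - 1) n, mono U + r' ∈ P := by
  classical
  intro N
  induction N using Nat.strong_induction_on with
  | _ N ih =>
    intro A hN hA hcard r hr hP
    by_cases h1 : ∃ U ∈ A, ∃ U' ∈ A, U ≠ U'
    · obtain ⟨U, hU, U', hU', hne⟩ := h1
      have hi : ∃ i ∈ U, i ∉ U' := by
        by_contra hcon
        push Not at hcon
        exact hne (Finset.eq_of_subset_of_card_le hcon (by rw [hcard U hU, hcard U' hU']))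
      have hj : ∃ j ∈ U', j ∉ U := by
        by_contra hcon
        push Not at hcon
        exact hne.symm (Finset.eq_of_subset_of_card_le hcon (by rw [hcard U hU, hcard U' hU']))
      obtain ⟨i, hiU, hiU'⟩ := hi
      obtain ⟨j, hjU', hjU⟩ := hj
      have hij : i ≠ j := by
        rintro rfl
        exact hiU' hjU'
      have hch : ∀ S : Finset (Fin n), ∃ t : Fn n, t ∈ RM (S.card - 1) n ∧
          prj i j (mono S) = (if i ∈ S ∧ j ∉ S then mono S else 0) + t := by
        intro S
        obtain ⟨t, ht, h⟩ := prj_mono S hij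
        exact ⟨t, ht, h⟩
      choose t ht hprj using hch
      have hsub : (A.filter (fun S => i ∈ S ∧ j ∉ S)).card < N := by
        rw [← hN]
        apply Finset.card_lt_card
        rw [Finset.filter_ssubset]
        exact ⟨U', hU', fun h => hiU' h.1⟩
      have hPp : prj i j ((∑ S ∈ A, mono S) + r) ∈ P := by
        unfold prj
        have h2 := Submodule.add_mem _ (htrv _ hP i j hij) hP
        exact Submodule.add_mem _ (htrv _ h2 j i hij.symm) h2
      have heq : prj i j ((∑ S ∈ A, mono S) + r)
          = (∑ S ∈ A.filter (fun S => i ∈ S ∧ j ∉ S), mono S) + ((∑ S ∈ A, t S) + prj i j r) := by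
        rw [prj_add]
        have h3 : prj i j (∑ S ∈ A, mono S) = ∑ S ∈ A, prj i j (mono S) :=
          map_sum (prjH i j) _ _
        rw [h3, Finset.sum_congr rfl (fun S _ => hprj S), Finset.sum_add_distrib, Finset.sum_filter]
        abel
      rw [heq] at hPp
      refine ih _ hsub _ rfl ⟨U, Finset.mem_filter.mpr ⟨hU, hiU, hjU⟩⟩ ?_ _ ?_ hPp
      · intro S hS
        exact hcard S (Finset.mem_filter.mp hS).1
      · refine Submodule.add_mem _ (Submodule.sum_mem _ ?_) (prj_mem hr i j)
        intro S hS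
        have := ht S
        rw [hcard S hS] at this
        exact this
    · push Not at h1
      obtain ⟨U, hU⟩ := hA
      have : A = {U} := by
        ext S
        simp only [Finset.mem_singleton]
        constructor
        · intro hS
          exact (h1 U hU S hS).symm
        · rintro rfl
          exact hU
      rw [this, Finset.sum_singleton] at hP
      exact ⟨U, hcard U hU, r, hr, hP⟩

include hflp in
lemma down {k : ℕ} (hk : RM k n ≤ P) : ∀ e : ℕ, ∀ U : Finset (Fin n), U.card = k + 1 + e →
    ∀ r ∈ RM (k + e) n, mono U + r ∈ P → ∃ U' : Finset (Fin n), U'.card = k + 1 ∧ mono U' ∈ P := by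
  intro e
  induction e with
  | zero =>
    intro U hU r hr hP
    refine ⟨U, hU, ?_⟩
    have := Submodule.sub_mem _ hP (hk hr)
    simpa using this
  | succ e ih =>
    intro U hU r hr hP
    have hne : U.Nonempty := by
      rw [← Finset.card_pos]; omega
    obtain ⟨i, hi⟩ := hne
    have h1 := Submodule.add_mem _ (hflp _ hP i) hP
    have h2 : (mono U + r) ∘ flp i + (mono U + r) = mono (U.erase i) + (r ∘ flp i + r) := by
      have h3 := flp_mono U i
      rw [if_pos hi] at h3
      rw [← h3]
      funext x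
      simp only [Pi.add_apply, Function.comp_apply]
      ring
    rw [h2] at h1
    refine ih (U.erase i) ?_ _ ?_ h1
    · rw [Finset.card_erase_of_mem hi]; omega
    · exact der_mem (k := k + e) hr i

include htrv in
lemma exchange {k : ℕ} : ∀ N : ℕ, ∀ U T : Finset (Fin n), (T \ U).card = N → U.card = k →
    T.card = k → mono U ∈ P → mono T ∈ P := by
  classical
  intro N
  induction N with
  | zero =>
    intro U T h hU hT hP
    have h1 : T ⊆ U := by
      rw [Finset.card_eq_zero, Finset.sdiff_eq_empty_iff_subset] at h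
      exact h
    have h2 : T = U := Finset.eq_of_subset_of_card_le h1 (by omega)
    rw [h2]; exact hP
  | succ N ih =>
    intro U T h hU hT hP
    have hne : (T \ U).Nonempty := by
      rw [← Finset.card_pos]; omega
    obtain ⟨j, hj⟩ := hne
    rw [Finset.mem_sdiff] at hj
    have hi : ∃ i ∈ U, i ∉ T := by
      by_contra hcon
      push Not at hcon
      have h2 : U = T := Finset.eq_of_subset_of_card_le hcon (by omega)
      rw [h2] at hj
      exact hj.2 hj.1
    obtain ⟨i, hiU, hiT⟩ := hi
    have hij : i ≠ j := by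
      rintro rfl
      exact hiT hj.1
    have h1 := Submodule.add_mem _ (htrv _ hP i j hij) hP
    rw [trv_mono, if_pos hiU] at h1
    have hjn : j ∉ U.erase i := fun h => hj.2 (Finset.mem_of_mem_erase h)
    refine ih (insert j (U.erase i)) T ?_ ?_ hT h1
    · have h3 : T \ (insert j (U.erase i)) = (T \ U).erase j := by
        ext x
        simp only [Finset.mem_sdiff, Finset.mem_insert, Finset.mem_erase]
        constructor
        · rintro ⟨hx, hx2⟩
          refine ⟨fun h => hx2 (Or.inl h), hx, fun hxU => hx2 (Or.inr ⟨?_, hxU⟩)⟩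
          rintro rfl
          exact hiT hx
        · rintro ⟨hxj, hx, hxU⟩
          exact ⟨hx, fun h => h.elim hxj (fun h' => hxU h'.2)⟩
      rw [h3, Finset.card_erase_of_mem (Finset.mem_sdiff.mpr hj)]
      omega
    · rw [Finset.card_insert_of_notMem hjn, Finset.card_erase_of_mem hiU]
      have : 0 < U.card := Finset.card_pos.mpr ⟨i, hiU⟩
      omega

include htrv hflp in
/-- an affine-invariant code strictly above `RM k` contains `RM (k+1)` -/
theorem step_up {k : ℕ} (hk : RM k n ≤ P) {f : Fn n} (hf : f ∈ P) (hfk : f ∉ RM k n) :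
    RM (k + 1) n ≤ P := by
  classical
  -- minimal degree
  have hex : ∃ d, f ∈ RM d n := ⟨n, by rw [RM_top le_rfl]; trivial⟩
  obtain ⟨d, hd, hmin⟩ : ∃ d, f ∈ RM d n ∧ ∀ e < d, f ∉ RM e n :=
    ⟨Nat.find hex, Nat.find_spec hex, fun e he => Nat.find_min hex he⟩
  have hdk : k + 1 ≤ d := by
    by_contra hcon
    exact hfk (RM_le (by omega) hd)
  obtain ⟨a, r, hr, hfa⟩ := top_part hd
  have hfd : f ∉ RM (d - 1) n := hmin _ (by omega)
  set A := ((Finset.univ : Finset (Fin n)).powersetCard d).filter (fun S => a S ≠ 0) with hA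
  have hsum : (∑ S ∈ (Finset.univ : Finset (Fin n)).powersetCard d, a S • mono S) = ∑ S ∈ A, mono S := by
    rw [hA, Finset.sum_filter]
    apply Finset.sum_congr rfl
    intro S _
    rcases zmod2_cases (a S) with h | h
    · simp [h]
    · simp [h]
  rw [hsum] at hfa
  have hAne : A.Nonempty := by
    rw [Finset.nonempty_iff_ne_empty]
    intro h
    rw [h, Finset.sum_empty, zero_add] at hfa
    exact hfd (hfa ▸ hr)
  obtain ⟨U, hU, r', hr', hUP⟩ := single_top P htrv A.card A rfl hAne
    (fun S hS => (Finset.mem_powersetCard.mp (Finset.mem_filter.mp hS).1).2) r hr (hfa ▸ hf)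
  obtain ⟨e, rfl⟩ : ∃ e, d = k + 1 + e := ⟨d - (k + 1), by omega⟩
  have hr2 : r' ∈ RM (k + e) n := RM_le (by omega) hr'
  obtain ⟨U', hU', hU'P⟩ := down P hflp hk e U hU r' hr2 hUP
  unfold RM
  rw [Submodule.span_le]
  rintro _ ⟨S, hS, rfl⟩
  have hS' : S.card ≤ k + 1 := hS
  rcases Nat.lt_or_eq_of_le hS' with h | h
  · exact hk (mono_mem (by omega))
  · exact exchange P htrv _ U' S rfl hU' h hU'P

end Inv

/-! ### Metric regularity -/

lemma hd_comp {n : ℕ} (e : (Fin n → ZMod 2) → (Fin n → ZMod 2)) (he : ∀ x, e (e x) = x) (f g : Fn n) :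
    hammingDist (f ∘ e) (g ∘ e) = hammingDist f g := by
  unfold hammingDist
  apply Finset.card_bij (fun x _ => e x)
  · intro x hx
    simpa using hx
  · intro x _ y _ h
    have := congrArg e h
    rwa [he, he] at this
  · intro y hy
    refine ⟨e y, ?_, he y⟩
    simpa [he] using hy

lemma dd_comp {n k : ℕ} (e : (Fin n → ZMod 2) → (Fin n → ZMod 2)) (he : ∀ x, e (e x) = x)
    (hm : ∀ f ∈ RM k n, f ∘ e ∈ RM k n) (f : Fn n) :
    dd ((RM k n : Submodule (ZMod 2) (Fn n)) : Set (Fn n)) (f ∘ e)
      = dd ((RM k n : Submodule (ZMod 2) (Fn n)) : Set (Fn n)) f := by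
  apply le_antisymm
  · apply le_dd (RM_nonempty _ _)
    intro a ha
    rw [← hd_comp e he]
    exact dd_le _ (hm a ha)
  · apply le_dd (RM_nonempty _ _)
    intro a ha
    rw [← hd_comp e he]
    have : (f ∘ e) ∘ e = f := by
      funext x; simp [he]
    rw [this]
    exact dd_le _ (hm a ha)

lemma add_self_fn {n : ℕ} (f : Fn n) : f + f = 0 := by
  funext x
  exact CharTwo.add_self_eq_zero _

lemma hd_add {n : ℕ} (f g h : Fn n) : hammingDist (f + h) g = hammingDist f (g + h) := by
  rw [hammingDist_eq_hammingNorm, hammingDist_eq_hammingNorm]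
  congr 1
  have h2 : -h = h := by
    funext x
    exact CharTwo.neg_eq _
  rw [neg_add, h2]
  abel

/-- the metric complement of the Reed-Muller code -/
def BB (k n : ℕ) : Set (Fn n) :=
  {y | dd ((RM k n : Submodule (ZMod 2) (Fn n)) : Set (Fn n)) y = cov k n}

lemma dd_add {n k : ℕ} (y a : Fn n) (ha : a ∈ RM k n) :
    dd ((RM k n : Submodule (ZMod 2) (Fn n)) : Set (Fn n)) (y + a)
      = dd ((RM k n : Submodule (ZMod 2) (Fn n)) : Set (Fn n)) y := by
  apply le_antisymm
  · apply le_dd (RM_nonempty _ _)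
    intro c hc
    have : hammingDist y c = hammingDist (y + a) (c + a) := by
      rw [hd_add, add_assoc, add_self_fn, add_zero]
    rw [this]
    exact dd_le _ (Submodule.add_mem _ hc ha)
  · apply le_dd (RM_nonempty _ _)
    intro c hc
    rw [hd_add]
    exact dd_le _ (Submodule.add_mem _ hc ha)

/-- the stabiliser of the metric complement -/
def PP (k n : ℕ) : Submodule (ZMod 2) (Fn n) where
  carrier := {f | ∀ b ∈ BB k n, b + f ∈ BB k n}
  add_mem' := by
    intro f g hf hg b hb
    rw [← add_assoc]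
    exact hg _ (hf b hb)
  zero_mem' := by
    intro b hb
    rwa [add_zero]
  smul_mem' := by
    intro c f hf b hb
    rcases zmod2_cases c with h | h
    · rw [h, zero_smul, add_zero]; exact hb
    · rw [h, one_smul]; exact hf b hb

lemma PP_comp {n k : ℕ} (e : (Fin n → ZMod 2) → (Fin n → ZMod 2)) (he : ∀ x, e (e x) = x)
    (hm : ∀ f ∈ RM k n, f ∘ e ∈ RM k n) {f : Fn n} (hf : f ∈ PP k n) : f ∘ e ∈ PP k n := by
  intro b hb
  have h1 : b ∘ e ∈ BB k n := by
    show dd _ _ = _
    rw [dd_comp e he hm]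
    exact hb
  have h2 := hf _ h1
  have h3 : b + f ∘ e = (b ∘ e + f) ∘ e := by
    funext x
    simp [he]
  rw [h3]
  show dd _ _ = _
  rw [dd_comp e he hm]
  exact h2

lemma RM_le_PP (k n : ℕ) : RM k n ≤ PP k n := by
  intro a ha b hb
  show dd _ _ = _
  rw [dd_add b a ha]
  exact hb

theorem PP_eq (k n : ℕ) : PP k n = RM k n := by
  apply le_antisymm _ (RM_le_PP k n)
  intro f hf
  by_contra hfk
  have hkn : k < n := by
    by_contra hcon
    exact hfk (by rw [RM_top (by omega)]; trivial)
  have h1 : RM (k + 1) n ≤ PP k n :=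
    step_up (PP k n)
      (fun g hg i j hij => PP_comp (trv i j) (trv_trv hij) (fun f hf => comp_trv_mem hf i j) hg)
      (fun g hg i => PP_comp (flp i) (flp_flp i) (fun f hf => comp_flp_mem hf i) hg)
      (RM_le_PP k n) hf hfk
  obtain ⟨b, hb⟩ := exists_cov k n
  obtain ⟨c, hc, hc2⟩ := dd_exists (RM_nonempty (k + 1) n) b
  have h2 : b + c ∈ BB k n := h1 hc b hb
  have h3 : dd ((RM k n : Submodule (ZMod 2) (Fn n)) : Set (Fn n)) (b + c) ≤ hammingDist (b + c) 0 :=
    dd_le _ (Submodule.zero_mem _)
  have h4 : dd ((RM k n : Submodule (ZMod 2) (Fn n)) : Set (Fn n)) (b + c) = cov k n := h2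
  rw [hd_add, zero_add, hc2, h4] at h3
  have h5 := dd_le_cov (k + 1) n b
  have h6 := cov_strict n k hkn
  omega

/-- distance of a point to the metric complement -/
theorem dd_BB_le (k n : ℕ) (z : Fn n) : dd (BB k n) z ≤ cov k n := by
  obtain ⟨b, hb⟩ := exists_cov k n
  obtain ⟨a, ha, ha2⟩ := dd_exists (RM_nonempty k n) (z + b)
  have h1 : b + a ∈ BB k n := RM_le_PP k n ha b hb
  refine le_trans (dd_le z h1) ?_
  rw [hd_add] at ha2
  rw [add_comm b a, ha2]
  exact dd_le_cov _ _ _

theorem dd_BB_mem {k n : ℕ} {z : Fn n} (hz : z ∈ RM k n) : dd (BB k n) z = cov k n := by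
  apply le_antisymm (dd_BB_le k n z)
  apply le_dd
  · obtain ⟨b, hb⟩ := exists_cov k n
    exact ⟨b, hb⟩
  · intro b hb
    have : dd ((RM k n : Submodule (ZMod 2) (Fn n)) : Set (Fn n)) b = cov k n := hb
    rw [← this, hammingDist_comm]
    exact dd_le b hz

/-- **Metric regularity of every Reed-Muller code.** -/
theorem metric_regular {k n : ℕ} (z : Fn n) : dd (BB k n) z = cov k n ↔ z ∈ RM k n := by
  constructor
  · intro h
    rw [← PP_eq]
    intro b hb
    show dd _ _ = _
    apply le_antisymm (dd_le_cov _ _ _)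
    apply le_dd (RM_nonempty _ _)
    intro a ha
    rw [add_comm, hd_add, ← h, add_comm a b]
    exact dd_le z (RM_le_PP k n ha b hb)
  · exact dd_BB_mem

end Pool.Agent.H195R2
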